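import Pool.Agent.Helper37.KD.DefsC
import Pool.Agent.Helper37.KD.St.B1
import Pool.Agent.Helper37.KD.St.B2

/-! KD Part I, piece B3: energy inequality, jump part, for environments -/

namespace KD.I.B3

open Finset

section aux
variable {d : ℕ} {s lam Lam c0 C0 C1 : ℝ}

theorem n1_nonneg {d N : ℕ} (x : V d N) : 0 ≤ n1 x := by
  unfold n1
  positivity

theorem n1_le_nsup {d N : ℕ} (x : V d N) : n1 x ≤ d * (nsup x : ℝ) := by
  unfold n1
  calc ∑ i, ((x i).valMinAbs.natAbs : ℝ) ≤ ∑ _i : Fin d, (nsup x : ℝ) := by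
        refine Finset.sum_le_sum fun i _ => ?_
        have : (x i).valMinAbs.natAbs ≤ nsup x :=
          Finset.le_sup (f := fun i => (x i).valMinAbs.natAbs) (Finset.mem_univ i)
        exact_mod_cast this
    _ = d * (nsup x : ℝ) := by simp

theorem n1_zero {d N : ℕ} [NeZero N] : n1 (0 : V d N) = 0 := by
  unfold n1
  simp

theorem nm_jv_le (E : Env d s c0 C0 C1) (k : ℕ) {j : ℕ} (hj : j < E.K + 4) (θ : E.Θ) :
    E.nm k (E.S.jv j θ) ≤ d * 2 ^ (E.K + 4) := by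
  have hN := E.ne
  unfold Env.nm nrm JSys.jv vs
  rw [n1_zero, zero_div, zero_add]
  have h1 := n1_le_nsup (E.S.pi j θ)
  have h2 : nsup (E.S.pi j θ) < 2 ^ (j + 1) := E.S.pi_hi j (by omega) θ
  have h3 : (nsup (E.S.pi j θ) : ℝ) ≤ 2 ^ (E.K + 4) := by
    have : nsup (E.S.pi j θ) ≤ 2 ^ (E.K + 4) :=
      h2.le.trans (Nat.pow_le_pow_right (by norm_num) (by omega))
    exact_mod_cast this
  have h4 : (1 : ℝ) ≤ 2 ^ k := one_le_pow₀ (by norm_num)
  calc n1 (E.S.pi j θ) / 2 ^ k ≤ n1 (E.S.pi j θ) := div_le_self (n1_nonneg _) h4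
    _ ≤ d * (nsup (E.S.pi j θ) : ℝ) := h1
    _ ≤ d * 2 ^ (E.K + 4) := by gcongr

variable {E : Env d s c0 C0 C1} {M0 : ℝ} {a : ℕ → E.Θ → E.G → ℝ} {μ : E.G → ℝ}

theorem bl_le (ha : E.S.Coef lam Lam M0 a) (hμ : IsP μ) {k : ℕ} (hk : k ≤ E.K) (j : ℕ)
    (θ : E.Θ) (z : E.G) : E.bl a μ (k + 1) j θ z ≤ Lam * lev E.q μ (k + 1) z := by
  have h := lev_mono (q := E.q) (n := k + 1) (f := fun z => a j θ z * μ z)
    (g := fun z => Lam * μ z) (fun i hi z => (E.q_pos (by omega) z).le)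
    (fun z => mul_le_mul_of_nonneg_right (ha.hi j θ z) (hμ.nn z)) z
  rw [lev_smul] at h
  exact h

theorem le_bl (ha : E.S.Coef lam Lam M0 a) (hμ : IsP μ) {k : ℕ} (hk : k ≤ E.K) (j : ℕ)
    (θ : E.Θ) (z : E.G) : lam * lev E.q μ (k + 1) z ≤ E.bl a μ (k + 1) j θ z := by
  have h := lev_mono (q := E.q) (n := k + 1) (g := fun z => a j θ z * μ z)
    (f := fun z => lam * μ z) (fun i hi z => (E.q_pos (by omega) z).le)
    (fun z => mul_le_mul_of_nonneg_right (ha.lo j θ z) (hμ.nn z)) z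
  rw [lev_smul] at h
  exact h

/-- the constant -/
noncomputable def DD (d K : ℕ) (Lam C0 : ℝ) : ℝ :=
  (K + 4) * C0 * (Lam * Real.exp (d * 2 ^ (K + 4)))

theorem wt_nonneg (E : Env d s c0 C0 C1) (j : ℕ) (θ : E.Θ) : 0 ≤ E.S.wt s j θ :=
  div_nonneg (E.S.m_nn θ) (tim_pos s j).le

theorem sum_wt_le (hs : 0 < s) (E : Env d s c0 C0 C1) :
    ∑ j ∈ range (E.K + 4), ∑ θ, E.S.wt s j θ ≤ (E.K + 4) * C0 := by
  calc ∑ j ∈ range (E.K + 4), ∑ θ, E.S.wt s j θ ≤ ∑ _j ∈ range (E.K + 4), C0 := by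
        refine Finset.sum_le_sum fun j _ => ?_
        refine le_trans (Finset.sum_le_sum fun θ _ => ?_) E.S.mass
        exact div_le_self (E.S.m_nn θ) (one_le_tim hs j)
    _ = (E.K + 4) * C0 := by simp

theorem diff_le (hs : 0 < s) (hlam : 0 < lam) (hLam : lam ≤ Lam)
    (ha : E.S.Coef lam Lam M0 a) (hμ : IsP μ) {k : ℕ} (hk : k ≤ E.K) (z : E.G) :
    |E.ε * ∑ j ∈ range (E.K + 4), ∑ θ, E.S.wt s j θ *
      (E.bl a μ (k + 1) j θ (z + E.S.jv j θ) - E.bl a μ (k + 1) j θ z)| ≤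
      E.ε * (DD d E.K Lam C0 * lev E.q μ (k + 1) z) := by
  have hN := E.ne
  have hu := E.u_pos hμ hk z
  have hLam0 : 0 < Lam := lt_of_lt_of_le hlam hLam
  rw [abs_mul, abs_of_pos E.hε]
  refine mul_le_mul_of_nonneg_left ?_ E.hε.le
  have key : ∀ j ∈ range (E.K + 4), ∀ θ,
      |E.bl a μ (k + 1) j θ (z + E.S.jv j θ) - E.bl a μ (k + 1) j θ z| ≤
        Lam * Real.exp (d * 2 ^ (E.K + 4)) * lev E.q μ (k + 1) z := by
    intro j hj θ
    have hexp : (1 : ℝ) ≤ Real.exp (d * 2 ^ (E.K + 4)) := Real.one_le_exp (by positivity)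
    have h1 := bl_le ha hμ hk j θ (z + E.S.jv j θ)
    have h2 := bl_le ha hμ hk j θ z
    have h3 := le_bl ha hμ hk j θ (z + E.S.jv j θ)
    have h4 := le_bl ha hμ hk j θ z
    have h5 := E.u_lip hμ hk z (E.S.jv j θ)
    have h6 : Real.exp (E.nm k (E.S.jv j θ)) ≤ Real.exp (d * 2 ^ (E.K + 4)) :=
      Real.exp_le_exp.2 (nm_jv_le E k (Finset.mem_range.1 hj) θ)
    have h7 : lev E.q μ (k + 1) (z + E.S.jv j θ) ≤
        Real.exp (d * 2 ^ (E.K + 4)) * lev E.q μ (k + 1) z :=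
      h5.trans (mul_le_mul_of_nonneg_right h6 hu.le)
    have h8 := E.u_pos hμ hk (z + E.S.jv j θ)
    have h9 : Lam * lev E.q μ (k + 1) (z + E.S.jv j θ) ≤
        Lam * Real.exp (d * 2 ^ (E.K + 4)) * lev E.q μ (k + 1) z := by
      rw [mul_assoc]
      exact mul_le_mul_of_nonneg_left h7 hLam0.le
    have h10 : Lam * lev E.q μ (k + 1) z ≤
        Lam * Real.exp (d * 2 ^ (E.K + 4)) * lev E.q μ (k + 1) z := by
      refine mul_le_mul_of_nonneg_right ?_ hu.le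
      exact le_mul_of_one_le_right hLam0.le hexp
    have h11 : 0 ≤ lam * lev E.q μ (k + 1) z := by positivity
    have h12 : 0 ≤ lam * lev E.q μ (k + 1) (z + E.S.jv j θ) := by positivity
    rw [abs_le]
    constructor <;> linarith
  calc |∑ j ∈ range (E.K + 4), ∑ θ, E.S.wt s j θ *
      (E.bl a μ (k + 1) j θ (z + E.S.jv j θ) - E.bl a μ (k + 1) j θ z)|
      ≤ ∑ j ∈ range (E.K + 4), ∑ θ, E.S.wt s j θ *
          (Lam * Real.exp (d * 2 ^ (E.K + 4)) * lev E.q μ (k + 1) z) := by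
        refine (Finset.abs_sum_le_sum_abs _ _).trans (Finset.sum_le_sum fun j hj => ?_)
        refine (Finset.abs_sum_le_sum_abs _ _).trans (Finset.sum_le_sum fun θ _ => ?_)
        rw [abs_mul, abs_of_nonneg (wt_nonneg E j θ)]
        exact mul_le_mul_of_nonneg_left (key j hj θ) (wt_nonneg E j θ)
    _ = (∑ j ∈ range (E.K + 4), ∑ θ, E.S.wt s j θ) *
          (Lam * Real.exp (d * 2 ^ (E.K + 4)) * lev E.q μ (k + 1) z) := by
        rw [Finset.sum_mul]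
        exact Finset.sum_congr rfl fun j _ => by rw [Finset.sum_mul]
    _ ≤ ((E.K + 4) * C0) * (Lam * Real.exp (d * 2 ^ (E.K + 4)) * lev E.q μ (k + 1) z) :=
        mul_le_mul_of_nonneg_right (sum_wt_le hs E) (by positivity)
    _ = DD d E.K Lam C0 * lev E.q μ (k + 1) z := by
        unfold DD
        ring

theorem sum_fin_prod {K : ℕ} {Θ : Type} [Fintype Θ] (f : ℕ → Θ → ℝ) :
    ∑ i : Fin K × Θ, f i.1 i.2 = ∑ j ∈ range K, ∑ θ, f j θ := by
  rw [Fintype.sum_prod_type, Finset.sum_range]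

theorem core (hs : 0 < s) (hlam : 0 < lam) (hLam : lam ≤ Lam) (hC0 : 0 < C0)
    (ha : E.S.Coef lam Lam M0 a) (hμ : IsP μ) {k : ℕ} (hk : k ≤ E.K)
    (hε : E.ε ≤ 1 / (DD d E.K Lam C0 + 1)) :
    Ht (lev E.q (E.Jop a μ) (k + 1)) ≤ Ht (lev E.q μ (k + 1)) - E.ε * (lam / 4) * E.Ik μ k
        + E.ε / (4 * lam) * E.Ek a μ k + DD d E.K Lam C0 ^ 2 * E.ε ^ 2 := by
  have hN := E.ne
  have hLam0 : 0 < Lam := lt_of_lt_of_le hlam hLam
  have hD : 0 < DD d E.K Lam C0 := by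
    unfold DD
    positivity
  have hdiff := fun z => diff_le (E := E) hs hlam hLam ha hμ hk z
  have hu := fun z => E.u_pos hμ hk z
  have hεD : E.ε * DD d E.K Lam C0 ≤ 1 := by
    rw [le_div_iff₀ (by positivity)] at hε
    have := E.hε
    nlinarith
  have := energy_jump (G := E.G) (ι := Fin (E.K + 4) × E.Θ)
    (fun i => E.S.wt s i.1 i.2) (fun i => E.S.jv i.1 i.2) (fun i => (i.1, E.S.neg i.2))
    (fun i => E.bl a μ (k + 1) i.1 i.2) (lev E.q μ (k + 1)) lam E.ε hlam E.hε.le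
    (fun i => wt_nonneg E _ _)
    (fun i => by rw [E.S.neg_neg])
    (fun i => by
      unfold JSys.jv vs
      rw [E.S.pi_neg]
      ext1 <;> simp)
    (fun i => by unfold JSys.wt; rw [E.S.m_neg])
    (fun i => by
      unfold Env.bl
      congr 1
      funext z
      rw [ha.symm])
    hu (fun i z => le_bl ha hμ hk _ _ z)
    (fun z => by
      have h1 := sum_fin_prod (K := E.K + 4) (Θ := E.Θ) (fun j θ => E.S.wt s j θ *
        (E.bl a μ (k + 1) j θ (z + E.S.jv j θ) - E.bl a μ (k + 1) j θ z))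
      rw [h1]
      have h2 := (abs_le.1 (hdiff z)).1
      have h3 := hu z
      nlinarith)
  have h1 : ∀ z, E.ε * ∑ i : Fin (E.K + 4) × E.Θ, E.S.wt s i.1 i.2 *
      (E.bl a μ (k + 1) i.1 i.2 (z + E.S.jv i.1 i.2) - E.bl a μ (k + 1) i.1 i.2 z) =
      E.ε * ∑ j ∈ range (E.K + 4), ∑ θ, E.S.wt s j θ *
        (E.bl a μ (k + 1) j θ (z + E.S.jv j θ) - E.bl a μ (k + 1) j θ z) := fun z => by
    rw [sum_fin_prod (K := E.K + 4) (Θ := E.Θ) (fun j θ => E.S.wt s j θ *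
        (E.bl a μ (k + 1) j θ (z + E.S.jv j θ) - E.bl a μ (k + 1) j θ z))]
  have h2 : (fun z => lev E.q μ (k + 1) z + E.ε * ∑ i : Fin (E.K + 4) × E.Θ, E.S.wt s i.1 i.2 *
      (E.bl a μ (k + 1) i.1 i.2 (z + E.S.jv i.1 i.2) - E.bl a μ (k + 1) i.1 i.2 z)) =
      lev E.q (E.Jop a μ) (k + 1) := by
    funext z
    rw [h1, lev_Jop]
  have h3 : (∑ i : Fin (E.K + 4) × E.Θ, E.S.wt s i.1 i.2 *
          ∑ z, (lev E.q μ (k + 1) (z + E.S.jv i.1 i.2) - lev E.q μ (k + 1) z) *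
            (Real.log (lev E.q μ (k + 1) (z + E.S.jv i.1 i.2)) -
              Real.log (lev E.q μ (k + 1) z))) = E.Ik μ k := by
    rw [sum_fin_prod (K := E.K + 4) (Θ := E.Θ) (fun j θ => E.S.wt s j θ *
      ∑ z, (lev E.q μ (k + 1) (z + E.S.jv j θ) - lev E.q μ (k + 1) z) *
            (Real.log (lev E.q μ (k + 1) (z + E.S.jv j θ)) -
              Real.log (lev E.q μ (k + 1) z)))]
    rfl
  have h4 : (∑ i : Fin (E.K + 4) × E.Θ, E.S.wt s i.1 i.2 *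
          ∑ z, min (lev E.q μ (k + 1) z) (lev E.q μ (k + 1) (z + E.S.jv i.1 i.2)) *
            (E.bl a μ (k + 1) i.1 i.2 (z + E.S.jv i.1 i.2) /
              lev E.q μ (k + 1) (z + E.S.jv i.1 i.2) -
              E.bl a μ (k + 1) i.1 i.2 z / lev E.q μ (k + 1) z) ^ 2) = E.Ek a μ k := by
    rw [sum_fin_prod (K := E.K + 4) (Θ := E.Θ) (fun j θ => E.S.wt s j θ *
      ∑ z, min (lev E.q μ (k + 1) z) (lev E.q μ (k + 1) (z + E.S.jv j θ)) *
            (E.bl a μ (k + 1) j θ (z + E.S.jv j θ) /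
              lev E.q μ (k + 1) (z + E.S.jv j θ) -
              E.bl a μ (k + 1) j θ z / lev E.q μ (k + 1) z) ^ 2)]
    rfl
  have h5 : ∑ z, (E.ε * ∑ i : Fin (E.K + 4) × E.Θ, E.S.wt s i.1 i.2 *
      (E.bl a μ (k + 1) i.1 i.2 (z + E.S.jv i.1 i.2) - E.bl a μ (k + 1) i.1 i.2 z)) ^ 2 /
        lev E.q μ (k + 1) z ≤ DD d E.K Lam C0 ^ 2 * E.ε ^ 2 := by
    calc _ ≤ ∑ z, DD d E.K Lam C0 ^ 2 * E.ε ^ 2 * lev E.q μ (k + 1) z := by
          refine Finset.sum_le_sum fun z _ => ?_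
          rw [div_le_iff₀ (hu z), h1, ← sq_abs]
          have h6 := hdiff z
          have h7 : 0 ≤ E.ε * (DD d E.K Lam C0 * lev E.q μ (k + 1) z) :=
            (abs_nonneg _).trans h6
          calc _ ≤ (E.ε * (DD d E.K Lam C0 * lev E.q μ (k + 1) z)) ^ 2 :=
                pow_le_pow_left₀ (abs_nonneg _) h6 2
            _ = _ := by ring
      _ = DD d E.K Lam C0 ^ 2 * E.ε ^ 2 := by
          rw [← Finset.mul_sum, E.u_sum hμ (by omega), mul_one]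
  rw [h2, h3, h4] at this
  linarith

end aux

/-- I.2 (a) for environments -/
theorem energy_jump_env (s lam Lam c0 C0 C1 : ℝ) (d : ℕ) (hs : 0 < s) (hlam : 0 < lam)
    (hLam : lam ≤ Lam) (hC0 : 0 < C0) (K : ℕ) :
    ∃ CK ε0 : ℝ, 0 < CK ∧ 0 < ε0 ∧ ∀ (E : Env d s c0 C0 C1), E.K = K → E.ε ≤ ε0 →
    ∀ (M0 : ℝ) (a : ℕ → E.Θ → E.G → ℝ), E.S.Coef lam Lam M0 a → ∀ μ, IsP μ → ∀ k ≤ K,
      Ht (lev E.q (E.Jop a μ) (k + 1)) ≤ Ht (lev E.q μ (k + 1)) - E.ε * (lam / 4) * E.Ik μ k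
        + E.ε / (4 * lam) * E.Ek a μ k + CK * E.ε ^ 2 := by
  have hLam0 : 0 < Lam := lt_of_lt_of_le hlam hLam
  have hD : 0 < DD d K Lam C0 := by
    unfold DD
    positivity
  refine ⟨DD d K Lam C0 ^ 2, 1 / (DD d K Lam C0 + 1), by positivity, by positivity, ?_⟩
  intro E hK hε M0 a ha μ hμ k hk
  subst hK
  exact core hs hlam hLam hC0 ha hμ hk hε

end KD.I.B3
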